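import Mathlib
import Pool.Agent.Y140.AW.Fin

/-!
# Wreath products `G ≀ A_n` over `F_p(X)`, `p` odd

Let `p` be an odd prime and `G` a finite perfect group; no realization of `G` is assumed. For
infinitely many `n` the wreath product `H = G ≀ A_n` occurs over `F_p(X)`; it occurs regularly over
every field `K` of characteristic `p`, and all embedding problems with kernel a power of `H` given by
a permutation action of `Gal(L/K)` have regular solutions over `K(t)` and, if `K` is Hilbertian,
proper solutions over `K`.

The proof uses coverings of the affine line which are unramified outside infinity, given by a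
function `f = x + h^p` on a curve with a `G`-covering: the discriminant is then a constant, and a
square for suitable `h`, and Dirichlet's theorem is used to show that the group is large.
-/

set_option autoImplicit false

namespace Pool.Agent.Results.MP_7f581e_nt.AlternatingWreath

/-- The alternating wreath product `G ≀ A_n`: the group of the elements of `G^n ⋊ S_n` over even
permutations. -/
def AltWreath (G : Type) [Group G] (n : ℕ) : Type :=
  (Equiv.Perm.sign.comp (SemidirectProduct.rightHom :
    (Fin n → G) ⋊[mulAutArrow] Equiv.Perm (Fin n) →* Equiv.Perm (Fin n))).ker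

/-- Its group structure. -/
instance instGroup (G : Type) [Group G] (n : ℕ) : Group (AltWreath G n) :=
  inferInstanceAs (Group (Equiv.Perm.sign.comp (SemidirectProduct.rightHom :
    (Fin n → G) ⋊[mulAutArrow] Equiv.Perm (Fin n) →* Equiv.Perm (Fin n))).ker)

/-- `G` occurs over `F`: it is the Galois group of a finite Galois extension of `F`. -/
def Occurs (F G : Type) [Field F] [Group G] : Prop :=
  ∃ (L : Type) (_ : Field L) (_ : Algebra F L),
    FiniteDimensional F L ∧ IsGalois F L ∧ Nonempty ((L ≃ₐ[F] L) ≃* G)

/-- `G` occurs regularly over `K`: it is the Galois group of a finite Galois extension of `K(t)` in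
which `K` is algebraically closed. -/
def OccursRegularly (K G : Type) [Field K] [Group G] : Prop :=
  ∃ (F : Type) (_ : Field F) (_ : Algebra (RatFunc K) F) (_ : Algebra K F)
    (_ : IsScalarTower K (RatFunc K) F) (_ : FiniteDimensional (RatFunc K) F)
    (_ : IsGalois (RatFunc K) F),
    Nonempty ((F ≃ₐ[RatFunc K] F) ≃* G) ∧
    ∀ y : F, IsAlgebraic K y → y ∈ Set.range (algebraMap K F)

/-- `K` is Hilbertian (in the form used in frozen statement S03429). -/
def Hilbertian (K : Type) [Field K] : Prop :=
  ∀ (f : Polynomial (Polynomial K)), f.Monic → Irreducible f →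
    (f.map (algebraMap (Polynomial K) (FractionRing (Polynomial K)))).Separable →
    ∀ g : Polynomial K, g ≠ 0 →
      ∃ a : K, g.eval a ≠ 0 ∧ Irreducible (f.map (Polynomial.evalRingHom a))

/-- The embedding problem `α : E → Gal(L/K)` has a regular solution over `K(t)`: there are a finite
Galois extension `F` of `K(t)` containing `L`, with `L` algebraically closed in `F`, and an
isomorphism `γ` of `Gal(F/K(t))` with `E` such that `σ` acts on `L` as `α (γ σ)`. -/
def RegularSolution (K L E : Type) [Field K] [Field L] [Algebra K L] [Group E]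
    (α : E →* (L ≃ₐ[K] L)) : Prop :=
  ∃ (F : Type) (_ : Field F) (_ : Algebra (RatFunc K) F) (_ : Algebra L F)
    (_ : Algebra K F) (_ : IsScalarTower K (RatFunc K) F) (_ : IsScalarTower K L F)
    (_ : FiniteDimensional (RatFunc K) F) (_ : IsGalois (RatFunc K) F)
    (γ : (F ≃ₐ[RatFunc K] F) ≃* E),
    (∀ (σ : F ≃ₐ[RatFunc K] F) (x : L), σ (algebraMap L F x) = algebraMap L F (α (γ σ) x)) ∧
    ∀ y : F, IsAlgebraic L y → y ∈ Set.range (algebraMap L F)

/-- The embedding problem `α : E → Gal(L/K)` has a proper solution: there are a finite Galois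
extension `F` of `K` containing `L` and an isomorphism `γ` of `Gal(F/K)` with `E` such that
`α (γ σ)` is the restriction of `σ` to `L`. -/
def ProperSolution (K L E : Type) [Field K] [Field L] [Algebra K L] [Normal K L] [Group E]
    (α : E →* (L ≃ₐ[K] L)) : Prop :=
  ∃ (F : Type) (_ : Field F) (_ : Algebra K F) (_ : Algebra L F) (_ : IsScalarTower K L F),
    FiniteDimensional K F ∧ IsGalois K F ∧
    ∃ γ : (F ≃ₐ[K] F) ≃* E, ∀ σ : F ≃ₐ[K] F, α (γ σ) = σ.restrictNormal L

/-- For every finite Galois extension `L` of `K` and every action of `Gal(L/K)` on a finite set `X`,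
the embedding problem given by the wreath product `(X → H) ⋊ Gal(L/K) → Gal(L/K)` (`τ` sends `f` to
`x ↦ f (τ⁻¹ x)`) has a regular solution over `K(t)`. -/
def WreathRegular (K H : Type) [Field K] [Group H] : Prop :=
  ∀ (L : Type) [Field L] [Algebra K L] [FiniteDimensional K L] [IsGalois K L]
    (X : Type) [Finite X] [MulAction (L ≃ₐ[K] L) X],
    RegularSolution K L ((X → H) ⋊[mulAutArrow] (L ≃ₐ[K] L)) SemidirectProduct.rightHom

/-- The same embedding problems have proper solutions over `K`. -/
def WreathProper (K H : Type) [Field K] [Group H] : Prop :=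
  ∀ (L : Type) [Field L] [Algebra K L] [FiniteDimensional K L] [IsGalois K L]
    (X : Type) [Finite X] [MulAction (L ≃ₐ[K] L) X],
    ProperSolution K L ((X → H) ⋊[mulAutArrow] (L ≃ₐ[K] L)) SemidirectProduct.rightHom

theorem result (p : ℕ) [Fact p.Prime] (hp : p ≠ 2) (G : Type) [Group G] [Finite G]
    (hG : commutator G = ⊤) (n₀ : ℕ) :
    ∃ n ≥ n₀, commutator (AltWreath G n) = ⊤ ∧ Occurs (RatFunc (ZMod p)) (AltWreath G n) ∧
      ∀ (K : Type) [Field K] [CharP K p], OccursRegularly K (AltWreath G n) ∧
        WreathRegular K (AltWreath G n) ∧ (Hilbertian K → WreathProper K (AltWreath G n)) :=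
  Pool.Agent.Y140.AW.out_of Pool.Agent.Y140.AW.t_main p hp G hG n₀

end Pool.Agent.Results.MP_7f581e_nt.AlternatingWreath
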