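import Pool.Agent.Y943.NG.Geo
import Pool.Agent.Y140.IG.PI

/-!
# The inverse Galois problem over `F_p(X)` and geometric Galois groups

A finite group `G` is a *geometric Galois group* over `k` if there is a (possibly infinite) Galois
extension `L` of `k(t)` with `Gal(L/k'(t)) ≃ G`, where `k'` is the algebraic closure of `k` in `L`.
(Every finite group is the group of a Galois extension of `k̄(t)` for `k = F_p`, by Harbater and Pop;
the condition is that this extension is Galois over `k(t)`.)

Theorem.  For every finite group `G` there is a finite group `H` such that `G` is a regular Galois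
group over every field `k` over which `H` is a geometric Galois group, and `G` is a Galois group over
every field `K` for which there are Galois extensions `F ⊆ L` of `K` with `Gal(L/F) ≃ H`.  Hence, for
every prime `p`, every finite group is a Galois group over `F_p(X)` if and only if every finite group
is `Gal(L/F)` for Galois extensions `F ⊆ L` of `F_p(X)`, if and only if every finite group is a
geometric Galois group over `F_p`, if and only if this holds over all fields of characteristic `p`;
and, for every field `k`, the regular inverse Galois problem has a positive answer over `k` if and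
only if every finite group is a geometric Galois group over `k`.

The main step is purely group theoretic (`Pool.Agent.Y943.NG.cover'`): every finite group `G` has a
finite cover `H → G` which extends to a homomorphism `Aut H → G`.
-/

set_option autoImplicit false

namespace Pool.Agent.Results.MP_7f581e_nt.GeometricGroups

open Pool.Agent.Y943.NG

/-- One group: there is a finite group `H` such that every homomorphism of groups `Γ ⊇ N ≃ H`, `N`
normal in `Γ`, gives a homomorphism `Γ → G` which is onto already on `N`. -/
def GroupCover (G H : Type) [Group G] [Group H] : Prop :=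
  ∀ (Γ : Type) [Group Γ] (N : Subgroup Γ) [N.Normal], Nonempty (N ≃* H) →
    ∃ f : Γ →* G, Function.Surjective fun x : N => f x

theorem groupCover {G H : Type} [Group G] [Group H] (ρ : MulAut H →* G) (s : G → H)
    (hs : ∀ g, ρ (MulAut.conj (s g)) = g) : GroupCover G H := by
  rintro Γ _ N _ ⟨e⟩
  refine ⟨(ρ.comp (MulAut.congr e).toMonoidHom).comp (MulAut.conjNormal (H := N)), fun g => ?_⟩
  refine ⟨e.symm (s g), ?_⟩
  change ρ (MulAut.congr e (MulAut.conjNormal ((e.symm (s g) : N) : Γ))) = g
  rw [MulAut.conjNormal_val]
  conv_rhs => rw [← hs g]
  congr 1
  ext h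
  simp [MulAut.congr, MulAut.conj_apply]

theorem result :
    (∀ (G : Type) [Group G] [Finite G], ∃ (H : Type) (_ : Group H) (_ : Finite H),
      GroupCover G H ∧
      (∀ (K : Type) [Field K], OccursNormally K H → Occurs K G) ∧
      (∀ (k : Type) [Field k], OccursGeometrically k H → OccursRegularly k G)) ∧
    (∀ (K : Type) [Field K], (∀ (G : Type) [Group G] [Finite G], Occurs K G) ↔
      ∀ (G : Type) [Group G] [Finite G], OccursNormally K G) ∧
    (∀ (k : Type) [Field k], (∀ (G : Type) [Group G] [Finite G], OccursRegularly k G) ↔
      ∀ (G : Type) [Group G] [Finite G], OccursGeometrically k G) ∧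
    ∀ (p : ℕ) [Fact p.Prime], List.TFAE
      [∀ (G : Type) [Group G] [Finite G], Occurs (RatFunc (ZMod p)) G,
       ∀ (G : Type) [Group G] [Finite G], OccursNormally (RatFunc (ZMod p)) G,
       ∀ (G : Type) [Group G] [Finite G], OccursGeometrically (ZMod p) G,
       ∀ (k : Type) [Field k] [CharP k p] (G : Type) [Group G] [Finite G],
         OccursGeometrically k G] := by
  refine ⟨fun G _ _ => ?_, all_field, all_regular, fun p _ => ?_⟩
  · obtain ⟨H, i1, i2, ρ, s, hs, h1, h2⟩ := one' G
    exact ⟨H, i1, i2, groupCover ρ s hs, h1, h2⟩
  · have h := (Pool.Agent.Y140.IG.all_groups p).out 0 1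
    have e1 : (∀ (G : Type) [Group G] [Finite G], Occurs (RatFunc (ZMod p)) G) ↔
        ∀ (k : Type) [Field k] [CharP k p] (G : Type) [Group G] [Finite G], OccursRegularly k G := h
    tfae_have 1 → 4 := fun h1 k _ _ G _ _ => geometrically_of_regularly (e1.1 h1 k G)
    tfae_have 4 → 3 := fun h4 G _ _ => h4 (ZMod p) G
    tfae_have 3 → 1 := fun h3 G _ _ => by
      have h5 := (all_regular (ZMod p)).2 h3
      exact Pool.Agent.Y140.IG.occurs_of_regular' (ZMod p) (h5 G)
    tfae_have 1 ↔ 2 := all_field (RatFunc (ZMod p))
    tfae_finish

end Pool.Agent.Results.MP_7f581e_nt.GeometricGroups
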