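import Mathlib
import Pool.Agent.Y140.IG.PI

/-!
# The inverse Galois problem over `F_p(X)` is the inverse Galois problem in characteristic `p`

Let `κ` be a finite field and `G` a finite group. If `G^(r+1)` occurs over `κ(X)`, where `r` is the
number of primes dividing the order of the abelianization of `G`, then one of the `r + 1` extensions
of `κ(X)` with group `G` given by the coordinates has no new constants. Hence `G` is the group of a
regular extension over every field `K` containing `κ`, and all embedding problems given by wreath
products `G ≀_X Gal(L/K)` have regular solutions over `K(t)`, and proper solutions if `K` is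
Hilbertian. As `κ(X)` is Hilbertian, all these statements are equivalent.

In particular, for each prime `p`: every finite group occurs over `F_p(X)` if and only if every
finite group occurs over every Hilbertian field of characteristic `p`, if and only if the regular
inverse Galois problem has a positive answer for all fields of characteristic `p`.
-/

set_option autoImplicit false

namespace Pool.Agent.Results.MP_7f581e_nt.PrimeFieldSuffices

/-- `G` occurs over `F`: it is the Galois group of a finite Galois extension of `F`. -/
def Occurs (F G : Type) [Field F] [Group G] : Prop :=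
  ∃ (L : Type) (_ : Field L) (_ : Algebra F L),
    FiniteDimensional F L ∧ IsGalois F L ∧ Nonempty ((L ≃ₐ[F] L) ≃* G)

/-- `G` occurs regularly over `K`: it is the Galois group of a finite Galois extension of `K(t)` in
which `K` is algebraically closed. -/
def OccursRegularly (K G : Type) [Field K] [Group G] : Prop :=
  ∃ (F : Type) (_ : Field F) (_ : Algebra (RatFunc K) F) (_ : Algebra K F)
    (_ : IsScalarTower K (RatFunc K) F) (_ : FiniteDimensional (RatFunc K) F)
    (_ : IsGalois (RatFunc K) F),
    Nonempty ((F ≃ₐ[RatFunc K] F) ≃* G) ∧
    ∀ y : F, IsAlgebraic K y → y ∈ Set.range (algebraMap K F)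

/-- `K` is Hilbertian (in the form used in frozen statement S03429). -/
def Hilbertian (K : Type) [Field K] : Prop :=
  ∀ (f : Polynomial (Polynomial K)), f.Monic → Irreducible f →
    (f.map (algebraMap (Polynomial K) (FractionRing (Polynomial K)))).Separable →
    ∀ g : Polynomial K, g ≠ 0 →
      ∃ a : K, g.eval a ≠ 0 ∧ Irreducible (f.map (Polynomial.evalRingHom a))

/-- The embedding problem `α : E → Gal(L/K)` has a regular solution over `K(t)`: there are a finite
Galois extension `F` of `K(t)` containing `L`, with `L` algebraically closed in `F`, and an
isomorphism `γ` of `Gal(F/K(t))` with `E` such that `σ` acts on `L` as `α (γ σ)`. -/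
def RegularSolution (K L E : Type) [Field K] [Field L] [Algebra K L] [Group E]
    (α : E →* (L ≃ₐ[K] L)) : Prop :=
  ∃ (F : Type) (_ : Field F) (_ : Algebra (RatFunc K) F) (_ : Algebra L F)
    (_ : Algebra K F) (_ : IsScalarTower K (RatFunc K) F) (_ : IsScalarTower K L F)
    (_ : FiniteDimensional (RatFunc K) F) (_ : IsGalois (RatFunc K) F)
    (γ : (F ≃ₐ[RatFunc K] F) ≃* E),
    (∀ (σ : F ≃ₐ[RatFunc K] F) (x : L), σ (algebraMap L F x) = algebraMap L F (α (γ σ) x)) ∧
    ∀ y : F, IsAlgebraic L y → y ∈ Set.range (algebraMap L F)

/-- The embedding problem `α : E → Gal(L/K)` has a proper solution: there are a finite Galois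
extension `F` of `K` containing `L` and an isomorphism `γ` of `Gal(F/K)` with `E` such that
`α (γ σ)` is the restriction of `σ` to `L`. -/
def ProperSolution (K L E : Type) [Field K] [Field L] [Algebra K L] [Normal K L] [Group E]
    (α : E →* (L ≃ₐ[K] L)) : Prop :=
  ∃ (F : Type) (_ : Field F) (_ : Algebra K F) (_ : Algebra L F) (_ : IsScalarTower K L F),
    FiniteDimensional K F ∧ IsGalois K F ∧
    ∃ γ : (F ≃ₐ[K] F) ≃* E, ∀ σ : F ≃ₐ[K] F, α (γ σ) = σ.restrictNormal L

/-- For every finite Galois extension `L` of `K` and every action of `Gal(L/K)` on a finite set `X`,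
the embedding problem given by the wreath product `(X → G) ⋊ Gal(L/K) → Gal(L/K)` (`τ` sends `f` to
`x ↦ f (τ⁻¹ x)`) has a regular solution over `K(t)`. -/
def WreathRegular (K G : Type) [Field K] [Group G] : Prop :=
  ∀ (L : Type) [Field L] [Algebra K L] [FiniteDimensional K L] [IsGalois K L]
    (X : Type) [Finite X] [MulAction (L ≃ₐ[K] L) X],
    RegularSolution K L ((X → G) ⋊[mulAutArrow] (L ≃ₐ[K] L)) SemidirectProduct.rightHom

/-- The same embedding problems have proper solutions over `K`. -/
def WreathProper (K G : Type) [Field K] [Group G] : Prop :=
  ∀ (L : Type) [Field L] [Algebra K L] [FiniteDimensional K L] [IsGalois K L]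
    (X : Type) [Finite X] [MulAction (L ≃ₐ[K] L) X],
    ProperSolution K L ((X → G) ⋊[mulAutArrow] (L ≃ₐ[K] L)) SemidirectProduct.rightHom

/-- For one finite group `G` and a finite field `κ` the following are equivalent: `G` occurs
regularly over `κ`; `G^(r+1)` occurs over `κ(X)`, `r` the number of primes dividing the order of the
abelianization of `G`; `WreathRegular K G` for all fields `K` containing `κ`; `WreathProper K G` for
all Hilbertian fields `K` containing `κ`. -/
def OneGroup (κ : Type) [Field κ] (G : Type) [Group G] : Prop :=
  List.TFAE
    [OccursRegularly κ G,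
     Occurs (RatFunc κ) (Fin ((Nat.card (Abelianization G)).primeFactors.card + 1) → G),
     ∀ (K : Type) [Field K] [Algebra κ K], WreathRegular K G,
     ∀ (K : Type) [Field K] [Algebra κ K], Hilbertian K → WreathProper K G]

/-- For a prime `p` the following are equivalent: every finite group occurs over `F_p(X)`; every
finite group occurs regularly over every field of characteristic `p`; every finite group occurs over
every Hilbertian field of characteristic `p`. -/
def AllGroups (p : ℕ) [Fact p.Prime] : Prop :=
  List.TFAE
    [∀ (G : Type) [Group G] [Finite G], Occurs (RatFunc (ZMod p)) G,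
     ∀ (K : Type) [Field K] [CharP K p] (G : Type) [Group G] [Finite G], OccursRegularly K G,
     ∀ (K : Type) [Field K] [CharP K p], Hilbertian K →
       ∀ (G : Type) [Group G] [Finite G], Occurs K G]

theorem result :
    (∀ (κ : Type) [Field κ] [Finite κ] (G : Type) [Group G] [Finite G], OneGroup κ G) ∧
    ∀ (p : ℕ) [Fact p.Prime], AllGroups p :=
  ⟨fun κ _ _ G _ _ => Pool.Agent.Y140.IG.one_group κ G,
    fun p _ => Pool.Agent.Y140.IG.all_groups p⟩

end Pool.Agent.Results.MP_7f581e_nt.PrimeFieldSuffices
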